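import Pool.Agent.Run7.h343.PV.Iface2

/-! Project PV (helper343), piece FM1 (helper216): the first moment, direct part. -/

set_option autoImplicit false

namespace Pool.Agent.Run7.h216.PV

open Finset Complex Pool.Agent.Run7.h343.PV

/-- the coefficients -/
noncomputable def cc (Y : ℝ) (w : ℝ → ℝ) (l n : ℕ) : ℝ :=
  mu l * PL Y l / Real.sqrt l * (w (Real.log n) / Real.sqrt n)

theorem abs_mu_le (n : ℕ) : |mu n| ≤ 1 := by
  unfold mu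
  exact_mod_cast (by exact_mod_cast ArithmeticFunction.abs_moebius_le_one (n := n))

theorem PL_nonneg (Y : ℝ) (l : ℕ) : 0 ≤ PL Y l := le_max_left _ _

theorem PL_le (Y : ℝ) (hY : 1 ≤ Y) (l : ℕ) : PL Y l ≤ 1 := by
  unfold PL
  refine max_le zero_le_one ?_
  have h1 : 0 ≤ Real.log l := Real.log_natCast_nonneg l
  have h2 : 0 ≤ Real.log Y := Real.log_nonneg hY
  have := div_nonneg h1 h2
  linarith

theorem abs_cc_le (Y : ℝ) (hY : 1 ≤ Y) (w : ℝ → ℝ) (hw : ∀ t, |w t| ≤ 1) (l n : ℕ) :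
    |cc Y w l n| ≤ 1 / Real.sqrt ((n : ℝ) * l) := by
  unfold cc
  rw [Real.sqrt_mul (Nat.cast_nonneg n), abs_mul, abs_div, abs_div, abs_mul,
    abs_of_nonneg (Real.sqrt_nonneg _), abs_of_nonneg (Real.sqrt_nonneg _),
    abs_of_nonneg (PL_nonneg Y l)]
  have h1 : |mu l| * PL Y l ≤ 1 := mul_le_one₀ (abs_mu_le l) (PL_nonneg Y l) (PL_le Y hY l)
  have h2 : |mu l| * PL Y l / Real.sqrt l ≤ 1 / Real.sqrt l :=
    div_le_div_of_nonneg_right h1 (Real.sqrt_nonneg _)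
  have h3 : |w (Real.log n)| / Real.sqrt n ≤ 1 / Real.sqrt n :=
    div_le_div_of_nonneg_right (hw _) (Real.sqrt_nonneg _)
  calc |mu l| * PL Y l / Real.sqrt l * (|w (Real.log n)| / Real.sqrt n)
      ≤ 1 / Real.sqrt l * (1 / Real.sqrt n) := mul_le_mul h2 h3 (by positivity) (by positivity)
    _ = 1 / (Real.sqrt n * Real.sqrt l) := by
        rw [div_mul_div_comm, one_mul, mul_comm]

theorem sum_tw {p ν m : ℕ} (hmν : m ≤ ν) [NeZero (p ^ m)] (χ : DirichletCharacter ℂ (p ^ ν))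
    (k : ℤ) : ∑ θ : DirichletCharacter ℂ (p ^ m), tw hmν χ θ (k : ZMod (p ^ ν)) =
      ((Nat.totient (p ^ m) : ℕ) : ℂ) *
        (χ (k : ZMod (p ^ ν)) * if (k : ZMod (p ^ m)) = 1 then 1 else 0) := by
  simp_rw [tw_apply]
  rw [← Finset.mul_sum, DirichletCharacter.sum_characters_eq]
  split_ifs <;> ring

theorem expand {p ν m N : ℕ} (hmν : m ≤ ν) (χ : DirichletCharacter ℂ (p ^ ν))
    (Y : ℝ) (w : ℝ → ℝ) (θ : DirichletCharacter ℂ (p ^ m)) :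
    (1 + tw hmν χ θ (-1)) * (Mol Y (tw hmν χ θ) * AA N w (tw hmν χ θ)) =
      ∑ l ∈ Icc 1 ⌊Y⌋₊, ∑ n ∈ Icc 1 N, ((cc Y w l n : ℝ) : ℂ) *
        (tw hmν χ θ (((l * n : ℕ) : ℤ) : ZMod (p ^ ν)) +
          tw hmν χ θ ((-((l * n : ℕ) : ℤ) : ℤ) : ZMod (p ^ ν))) := by
  unfold Mol AA
  rw [Finset.sum_mul_sum, Finset.mul_sum]
  refine Finset.sum_congr rfl fun l _ => ?_
  rw [Finset.mul_sum]
  refine Finset.sum_congr rfl fun n _ => ?_
  have h1 : tw hmν χ θ (((l * n : ℕ) : ℤ) : ZMod (p ^ ν)) =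
      tw hmν χ θ (l : ZMod (p ^ ν)) * tw hmν χ θ (n : ZMod (p ^ ν)) := by
    rw [← map_mul]
    congr 1
    push_cast
    ring
  have h2 : tw hmν χ θ ((-((l * n : ℕ) : ℤ) : ℤ) : ZMod (p ^ ν)) =
      tw hmν χ θ (-1) * (tw hmν χ θ (l : ZMod (p ^ ν)) * tw hmν χ θ (n : ZMod (p ^ ν))) := by
    rw [← map_mul, ← map_mul]
    congr 1
    push_cast
    ring
  rw [h1, h2]
  unfold cc
  push_cast
  ring

/-- the terms -/
noncomputable def TT {p ν : ℕ} (m : ℕ) (χ : DirichletCharacter ℂ (p ^ ν)) (Y : ℝ) (w : ℝ → ℝ)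
    (l n : ℕ) : ℂ :=
  ((cc Y w l n : ℝ) : ℂ) *
    ((χ (((l * n : ℕ) : ℤ) : ZMod (p ^ ν)) *
        if ((((l * n : ℕ) : ℤ)) : ZMod (p ^ m)) = 1 then 1 else 0) +
      (χ ((-((l * n : ℕ) : ℤ) : ℤ) : ZMod (p ^ ν)) *
        if ((-((l * n : ℕ) : ℤ) : ℤ) : ZMod (p ^ m)) = 1 then 1 else 0))

theorem total {p ν m N : ℕ} (hmν : m ≤ ν) [NeZero (p ^ m)] (χ : DirichletCharacter ℂ (p ^ ν))
    (Y : ℝ) (w : ℝ → ℝ) :
    ∑ θ : DirichletCharacter ℂ (p ^ m), (1 + tw hmν χ θ (-1)) *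
      (Mol Y (tw hmν χ θ) * AA N w (tw hmν χ θ)) =
      ((Nat.totient (p ^ m) : ℕ) : ℂ) * ∑ l ∈ Icc 1 ⌊Y⌋₊, ∑ n ∈ Icc 1 N, TT m χ Y w l n := by
  simp_rw [expand]
  rw [Finset.sum_comm, Finset.mul_sum]
  refine Finset.sum_congr rfl fun l _ => ?_
  rw [Finset.sum_comm, Finset.mul_sum]
  refine Finset.sum_congr rfl fun n _ => ?_
  rw [← Finset.mul_sum, Finset.sum_add_distrib, sum_tw, sum_tw]
  unfold TT
  ring

/-- the inverses -/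
noncomputable def uu (M : ℕ) (l : ℕ) : ℤ := (((l : ZMod M)⁻¹).val : ℤ)

theorem uu_cast (M : ℕ) [NeZero M] (l : ℕ) : ((uu M l : ℤ) : ZMod M) = (l : ZMod M)⁻¹ := by
  unfold uu
  rw [Int.cast_natCast, ZMod.natCast_zmod_val]

theorem inv_of_mul {M : ℕ} {a b : ZMod M} (h : a * b = 1) : b = a⁻¹ := by
  have hu : IsUnit a := IsUnit.of_mul_eq_one b h
  have h1 := ZMod.inv_mul_of_unit a hu
  calc b = (a⁻¹ * a) * b := by rw [h1, one_mul]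
    _ = a⁻¹ := by rw [mul_assoc, h, mul_one]

theorem case_pos {M L l n : ℕ} [NeZero M] (hl : 1 ≤ l) (hlL : l ≤ L) (hn : 1 ≤ n)
    (h11 : ¬ (l = 1 ∧ n = 1)) (h : ((((l * n : ℕ) : ℤ)) : ZMod M) = 1) :
    M ≤ 2 * L * n ∧ (M : ℤ) ∣ (n : ℤ) - uu M l := by
  have h2 : 2 ≤ l * n := by
    rcases Nat.lt_or_ge 1 l with h' | h'
    · nlinarith
    · have : l = 1 := by omega
      have hn' : 1 < n := by
        by_contra hc
        exact h11 ⟨this, by omega⟩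
      nlinarith
  constructor
  · have h3 : (M : ℤ) ∣ ((l * n : ℕ) : ℤ) - 1 := by
      rw [← ZMod.intCast_zmod_eq_zero_iff_dvd]
      push_cast
      push_cast at h
      rw [h, sub_self]
    have h4 : (M : ℤ) ≤ ((l * n : ℕ) : ℤ) - 1 := Int.le_of_dvd (by
      have : (2 : ℤ) ≤ ((l * n : ℕ) : ℤ) := by exact_mod_cast h2
      linarith) h3
    have h5 : M ≤ l * n := by
      have : (M : ℤ) ≤ ((l * n : ℕ) : ℤ) := by linarith
      exact_mod_cast this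
    have h6 : l * n ≤ L * n := Nat.mul_le_mul_right n hlL
    nlinarith
  · rw [← ZMod.intCast_zmod_eq_zero_iff_dvd]
    have h3 : (l : ZMod M) * (n : ZMod M) = 1 := by
      rw [← h]
      push_cast
      ring
    rw [Int.cast_sub, uu_cast, Int.cast_natCast, ← inv_of_mul h3, sub_self]

theorem case_neg {M L l n : ℕ} [NeZero M] (hl : 1 ≤ l) (hlL : l ≤ L) (hn : 1 ≤ n)
    (h : ((-((l * n : ℕ) : ℤ) : ℤ) : ZMod M) = 1) :
    M ≤ 2 * L * n ∧ (M : ℤ) ∣ (n : ℤ) - -uu M l := by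
  have h2 : 1 ≤ l * n := Nat.mul_pos hl hn
  constructor
  · have h3 : (M : ℤ) ∣ ((l * n : ℕ) : ℤ) + 1 := by
      rw [← ZMod.intCast_zmod_eq_zero_iff_dvd, Int.cast_add, Int.cast_one, ← h, ← Int.cast_add]
      simp
    have h4 : (M : ℤ) ≤ ((l * n : ℕ) : ℤ) + 1 := Int.le_of_dvd (by positivity) h3
    have h5 : M ≤ l * n + 1 := by exact_mod_cast h4
    have h6 : l * n ≤ L * n := Nat.mul_le_mul_right n hlL
    nlinarith
  · rw [← ZMod.intCast_zmod_eq_zero_iff_dvd]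
    have h3 : (l : ZMod M) * (-(n : ZMod M)) = 1 := by
      rw [← h]
      push_cast
      ring
    rw [Int.cast_sub, Int.cast_neg, uu_cast, Int.cast_natCast, ← inv_of_mul h3]
    ring

theorem term_bound {p ν m L : ℕ} [NeZero (p ^ m)] (h3 : 3 ≤ p ^ m)
    (χ : DirichletCharacter ℂ (p ^ ν)) (Y : ℝ) (hY : 1 ≤ Y) (w : ℝ → ℝ) (hw : ∀ t, |w t| ≤ 1)
    {l n : ℕ} (hl : 1 ≤ l) (hlL : l ≤ L) (hn : 1 ≤ n) :
    ‖TT m χ Y w l n - (if l = 1 ∧ n = 1 then ((w 0 : ℝ) : ℂ) else 0)‖ ≤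
      (if p ^ m ≤ 2 * L * n ∧ ((p ^ m : ℕ) : ℤ) ∣ (n : ℤ) - uu (p ^ m) l then
        1 / Real.sqrt ((n : ℝ) * l) else 0) +
      (if p ^ m ≤ 2 * L * n ∧ ((p ^ m : ℕ) : ℤ) ∣ (n : ℤ) - -uu (p ^ m) l then
        1 / Real.sqrt ((n : ℝ) * l) else 0) := by
  have hc0 : 0 ≤ 1 / Real.sqrt ((n : ℝ) * l) := by positivity
  by_cases h11 : l = 1 ∧ n = 1
  · obtain ⟨rfl, rfl⟩ := h11
    have hne : ¬ ((-1 : ZMod (p ^ m)) = 1) := by
      intro h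
      have h4 : ((2 : ℤ) : ZMod (p ^ m)) = 0 := by
        push_cast
        have : (2 : ZMod (p ^ m)) = 1 - -1 := by ring
        rw [this, h, sub_self]
      rw [ZMod.intCast_zmod_eq_zero_iff_dvd] at h4
      have h5 := Int.le_of_dvd (by norm_num) h4
      have h6 : p ^ m ≤ 2 := by exact_mod_cast h5
      omega
    have hT : TT m χ Y w 1 1 = ((w 0 : ℝ) : ℂ) := by
      unfold TT cc PL mu
      simp [hne]
    rw [hT, if_pos ⟨rfl, rfl⟩, sub_self, norm_zero]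
    refine add_nonneg ?_ ?_ <;> split_ifs <;> first | exact hc0 | exact le_rfl
  · rw [if_neg h11, sub_zero]
    unfold TT
    rw [norm_mul, Complex.norm_real, Real.norm_eq_abs]
    have hcc := abs_cc_le Y hY w hw l n
    have hA : ‖χ (((l * n : ℕ) : ℤ) : ZMod (p ^ ν)) *
        (if ((((l * n : ℕ) : ℤ)) : ZMod (p ^ m)) = 1 then (1 : ℂ) else 0)‖ ≤
        if p ^ m ≤ 2 * L * n ∧ ((p ^ m : ℕ) : ℤ) ∣ (n : ℤ) - uu (p ^ m) l then (1 : ℝ) else 0 := by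
      by_cases hk : ((((l * n : ℕ) : ℤ)) : ZMod (p ^ m)) = 1
      · rw [if_pos hk, if_pos (case_pos hl hlL hn h11 hk), mul_one]
        exact DirichletCharacter.norm_le_one χ _
      · rw [if_neg hk, mul_zero, norm_zero]
        split_ifs <;> norm_num
    have hB : ‖χ ((-((l * n : ℕ) : ℤ) : ℤ) : ZMod (p ^ ν)) *
        (if ((-((l * n : ℕ) : ℤ) : ℤ) : ZMod (p ^ m)) = 1 then (1 : ℂ) else 0)‖ ≤
        if p ^ m ≤ 2 * L * n ∧ ((p ^ m : ℕ) : ℤ) ∣ (n : ℤ) - -uu (p ^ m) l then (1 : ℝ) else 0 := by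
      by_cases hk : ((-((l * n : ℕ) : ℤ) : ℤ) : ZMod (p ^ m)) = 1
      · rw [if_pos hk, if_pos (case_neg hl hlL hn hk), mul_one]
        exact DirichletCharacter.norm_le_one χ _
      · rw [if_neg hk, mul_zero, norm_zero]
        split_ifs <;> norm_num
    have hsum := (norm_add_le _ _).trans (add_le_add hA hB)
    refine (mul_le_mul hcc hsum (norm_nonneg _) hc0).trans (le_of_eq ?_)
    rw [mul_add, mul_ite, mul_ite, mul_one, mul_zero]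

theorem t_FM1 (hT : S_TAIL) : S_FM1 := by
  intro p ν m N hmν _ χ Y w hp hp2 hm hY hN hw
  have hp3 : 3 ≤ p := by
    have := hp.two_le
    omega
  have h3 : 3 ≤ p ^ m := by
    calc 3 ≤ p := hp3
      _ = p ^ 1 := (pow_one p).symm
      _ ≤ p ^ m := Nat.pow_le_pow_right (by omega) hm
  have hL1 : 1 ≤ ⌊Y⌋₊ := Nat.le_floor (by simpa using hY)
  have hLY : ((⌊Y⌋₊ : ℕ) : ℝ) ≤ Y := Nat.floor_le (by linarith)
  rw [total, ← mul_sub]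
  rw [norm_mul, Complex.norm_natCast]
  refine mul_le_mul_of_nonneg_left ?_ (Nat.cast_nonneg _)
  have e1 : ((w 0 : ℝ) : ℂ) = ∑ l ∈ Icc 1 ⌊Y⌋₊, ∑ n ∈ Icc 1 N,
      (if l = 1 ∧ n = 1 then ((w 0 : ℝ) : ℂ) else 0) := by
    rw [Finset.sum_eq_single_of_mem 1 (mem_Icc.2 ⟨le_rfl, hL1⟩)]
    · rw [Finset.sum_eq_single_of_mem 1 (mem_Icc.2 ⟨le_rfl, hN⟩)]
      · simp
      · intro n _ hn
        rw [if_neg (fun h => hn h.2)]
    · intro l _ hl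
      exact Finset.sum_eq_zero fun n _ => if_neg fun h => hl h.1
  rw [e1, ← Finset.sum_sub_distrib]
  have hA := hT ⌊Y⌋₊ (p ^ m) N (uu (p ^ m)) hL1 (by omega)
  have hB := hT ⌊Y⌋₊ (p ^ m) N (fun l => -uu (p ^ m) l) hL1 (by omega)
  have hbd : ‖∑ l ∈ Icc 1 ⌊Y⌋₊, (∑ n ∈ Icc 1 N, TT m χ Y w l n - ∑ n ∈ Icc 1 N,
      (if l = 1 ∧ n = 1 then ((w 0 : ℝ) : ℂ) else 0))‖ ≤
      4 * ((⌊Y⌋₊ : ℕ) : ℝ) * (Real.sqrt (((⌊Y⌋₊ : ℕ) : ℝ) / ((p ^ m : ℕ) : ℝ)) +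
        Real.sqrt N / ((p ^ m : ℕ) : ℝ)) +
      4 * ((⌊Y⌋₊ : ℕ) : ℝ) * (Real.sqrt (((⌊Y⌋₊ : ℕ) : ℝ) / ((p ^ m : ℕ) : ℝ)) +
        Real.sqrt N / ((p ^ m : ℕ) : ℝ)) := by
    refine le_trans ?_ (add_le_add hA hB)
    rw [← Finset.sum_add_distrib]
    refine (norm_sum_le _ _).trans (Finset.sum_le_sum fun l hl => ?_)
    rw [← Finset.sum_sub_distrib, Finset.sum_filter, Finset.sum_filter, ← Finset.sum_add_distrib]
    refine (norm_sum_le _ _).trans (Finset.sum_le_sum fun n hn => ?_)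
    obtain ⟨hl1, hl2⟩ := mem_Icc.1 hl
    obtain ⟨hn1, hn2⟩ := mem_Icc.1 hn
    exact term_bound h3 χ Y hY w hw hl1 hl2 hn1
  refine hbd.trans ?_
  push_cast
  have hP : (0 : ℝ) < (p : ℝ) ^ m := by
    have : (0 : ℝ) < p := by exact_mod_cast hp.pos
    positivity
  have h5 : Real.sqrt (((⌊Y⌋₊ : ℕ) : ℝ) / (p : ℝ) ^ m) ≤ Real.sqrt (Y / (p : ℝ) ^ m) :=
    Real.sqrt_le_sqrt (div_le_div_of_nonneg_right hLY hP.le)
  have h6 : 0 ≤ Real.sqrt N / (p : ℝ) ^ m := by positivity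
  have h7 : ((⌊Y⌋₊ : ℕ) : ℝ) * (Real.sqrt (((⌊Y⌋₊ : ℕ) : ℝ) / (p : ℝ) ^ m) +
      Real.sqrt N / (p : ℝ) ^ m) ≤ Y * (Real.sqrt (Y / (p : ℝ) ^ m) + Real.sqrt N / (p : ℝ) ^ m) :=
    mul_le_mul hLY (by linarith) (by positivity) (by linarith)
  linarith

end Pool.Agent.Run7.h216.PV
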